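import Pool.Agent.helper84.TEX.Spec

/-!
# A+ (MP_3703a7_ag), row XE7: Eisenstein polynomials are a residue class modulo `p^2`
-/

set_option autoImplicit false

namespace Pool.Agent.TEX

open Pool.Agent.TC Pool.Agent.TN Polynomial

noncomputable section

theorem XE7 : XE7_stmt := by
  intro n p f hp h
  have hp1 : (p : ℤ) ≠ 0 := by exact_mod_cast hp.ne_zero
  have h2 : ∀ k, (p : ℤ) ^ 2 ∣ f k - (if k = 0 then (p : ℤ) else 0) := by
    intro k
    have h3 := h k
    push_cast at h3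
    exact h3
  have hpp : (p : ℤ) ∣ (p : ℤ) ^ 2 := dvd_pow_self _ two_ne_zero
  refine ⟨fun k => ?_, fun h0 => ?_⟩
  · have h3 : (p : ℤ) ∣ f k - (if k = 0 then (p : ℤ) else 0) := hpp.trans (h2 k)
    have h4 : (p : ℤ) ∣ (if k = 0 then (p : ℤ) else 0) := by
      split_ifs
      · exact dvd_rfl
      · exact dvd_zero _
    exact (dvd_sub_left h4).1 h3
  · have h3 := h2 0
    rw [if_pos rfl] at h3
    have h4 : (p : ℤ) ^ 2 ∣ (p : ℤ) := (dvd_sub_right h0).1 h3
    have h5 : (p : ℤ) * p ∣ (p : ℤ) * 1 := by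
      rw [mul_one, ← sq]
      exact h4
    have h6 : (p : ℤ) ∣ 1 := (mul_dvd_mul_iff_left hp1).1 h5
    have h7 : p ∣ 1 := by exact_mod_cast h6
    exact hp.one_lt.ne' (Nat.dvd_one.1 h7)

end

end Pool.Agent.TEX
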